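-- Withdrawn as a hand-in (see departures/helper51.md): the result is classical. Kept as a helper file.

import Pool.Agent.Run7.h51.HardyCantor

set_option autoImplicit false


namespace Run7.h51.Kept.HardyTrivialCantor

/-- The negation of the preceding statement: Every domain in ℂ whose complement has positive logarithmic capacity (it contains a compact set carrying a finite-energy probability measure) has a non-constant holomorphic f on it with ∣f∣² bounded by a harmonic function. -/
theorem result :
    ¬ (∀ Ω : Set ℂ, IsOpen Ω → IsConnected Ω →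
      (∃ K : Set ℂ, IsCompact K ∧ K ⊆ Ωᶜ ∧
        ∃ μ : MeasureTheory.Measure ℂ, MeasureTheory.IsProbabilityMeasure μ ∧
          MeasureTheory.NoAtoms μ ∧ μ Kᶜ = 0 ∧
          MeasureTheory.Integrable (fun p : ℂ × ℂ => Real.log ‖p.1 - p.2‖) (μ.prod μ)) →
      ∃ f : ℂ → ℂ, DifferentiableOn ℂ f Ω ∧
        (∃ u : ℂ → ℝ,
          (∀ z ∈ Ω, ∃ r > 0, Metric.ball z r ⊆ Ω ∧
            ∃ g : ℂ → ℂ, DifferentiableOn ℂ g (Metric.ball z r) ∧
              ∀ w ∈ Metric.ball z r, u w = (g w).re) ∧
          ∀ z ∈ Ω, ‖f z‖ ^ 2 ≤ u z) ∧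
        ∃ z ∈ Ω, ∃ w ∈ Ω, f z ≠ f w) := by
  -- The counterexample: the complement of the Cantor set on the real line, which has length zero and
  -- positive capacity.
  intro hall
  have hKcl : IsClosed Pool.Agent.Run7.h51.HN.K := Pool.Agent.Run7.h51.HN.K_compact.isClosed
  have hconn : IsConnected (Pool.Agent.Run7.h51.HN.K)ᶜ :=
    Pool.Agent.Run7.h51.HN.conn_compl Pool.Agent.Run7.h51.HN.K_real hKcl
      Pool.Agent.Run7.h51.HN.two_not_mem (by norm_num)
  have hPhi : Measurable Pool.Agent.Run7.h51.HN.Phi :=
    Pool.Agent.Run7.h51.HN.continuous_Phi.measurable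
  obtain ⟨f, hf, ⟨u, hu, hfu⟩, z, hz, w, hw, hne⟩ := hall _ hKcl.isOpen_compl hconn
    ⟨Pool.Agent.Run7.h51.HN.K, Pool.Agent.Run7.h51.HN.K_compact, (compl_compl _).ge,
      Pool.Agent.Run7.h51.HN.P.map Pool.Agent.Run7.h51.HN.Phi,
      MeasureTheory.Measure.isProbabilityMeasure_map hPhi.aemeasurable,
      ⟨fun x => by
        rw [MeasureTheory.Measure.map_apply hPhi (MeasurableSet.singleton x)]
        by_cases hx : ∃ a, Pool.Agent.Run7.h51.HN.Phi a = x
        · obtain ⟨a, rfl⟩ := hx
          have : Pool.Agent.Run7.h51.HN.Phi ⁻¹' {Pool.Agent.Run7.h51.HN.Phi a} = {a} := by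
            ext b
            simp only [Set.mem_preimage, Set.mem_singleton_iff]
            exact Pool.Agent.Run7.h51.HN.Phi_inj.eq_iff
          rw [this]
          exact Pool.Agent.Run7.h51.HN.P_singleton a
        · have : Pool.Agent.Run7.h51.HN.Phi ⁻¹' {x} = ∅ := by
            ext b
            simp only [Set.mem_preimage, Set.mem_singleton_iff, Set.mem_empty_iff_false,
              iff_false]
            exact fun hb => hx ⟨b, hb⟩
          rw [this, MeasureTheory.measure_empty]⟩,
      by
        rw [MeasureTheory.Measure.map_apply hPhi hKcl.isOpen_compl.measurableSet]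
        have : Pool.Agent.Run7.h51.HN.Phi ⁻¹' (Pool.Agent.Run7.h51.HN.K)ᶜ = ∅ := by
          ext b
          simp only [Set.mem_preimage, Set.mem_compl_iff, Set.mem_empty_iff_false, iff_false,
            not_not]
          exact ⟨b, rfl⟩
        rw [this, MeasureTheory.measure_empty],
      by
        rw [MeasureTheory.Measure.map_prod_map _ _ hPhi hPhi]
        rw [MeasureTheory.integrable_map_measure]
        · refine Pool.Agent.Run7.h51.HN.integrable_log.congr ?_
          refine Filter.Eventually.of_forall fun q => ?_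
          show Real.log |Pool.Agent.Run7.h51.HN.phi q.1 - Pool.Agent.Run7.h51.HN.phi q.2| =
            Real.log ‖((Pool.Agent.Run7.h51.HN.phi q.1 : ℝ) : ℂ) -
              ((Pool.Agent.Run7.h51.HN.phi q.2 : ℝ) : ℂ)‖
          rw [← Complex.ofReal_sub, Complex.norm_real, Real.norm_eq_abs]
        · refine Measurable.aestronglyMeasurable ?_
          exact Real.measurable_log.comp (measurable_fst.sub measurable_snd).norm
        · exact ((hPhi.comp measurable_fst).prodMk (hPhi.comp measurable_snd)).aemeasurable⟩
  exact hne (Pool.Agent.Run7.h51.HN.main_const Pool.Agent.Run7.h51.HN.K_real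
    Pool.Agent.Run7.h51.HN.bar_K hKcl hconn.isPreconnected hf hu hfu z hz w hw)

end Run7.h51.Kept.HardyTrivialCantor
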